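import Pool.Agent.MP_34d6af_nt.ff.Char

/-! The value of the logarithmic derivative at the edge of the strip. -/

set_option autoImplicit false
set_option linter.unusedSectionVars false

noncomputable section

namespace Pool.Agent.MP_34d6af_nt.FF

open Finset Classical Polynomial Filter Topology

theorem hasSum_eval (P : ℝ[X]) (u : ℝ) : HasSum (fun m => P.coeff m * u ^ m) (P.eval u) := by
  rw [eval_eq_sum_range]
  exact hasSum_sum_of_ne_finset_zero fun m hm => by
    rw [coeff_eq_zero_of_natDegree_lt (by simpa using hm), zero_mul]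

theorem logder {A : ℝ[X]} (h0 : A ≠ 0) {S : ℕ → ℝ} (hS : Summable fun k => |S k| * (1 / 2) ^ k)
    (h : ∀ n : ℕ, n * A.coeff n = ∑ k ∈ range n, S k * A.coeff (n - 1 - k)) :
    A.eval (1 / 2) ≠ 0 ∧ (derivative A).eval (1 / 2) = (∑' k, S k * (1 / 2) ^ k) * A.eval (1 / 2) := by
  have le : ∀ u : ℝ, 0 ≤ u → u ≤ 1 / 2 → ∀ k, ‖S k * u ^ k‖ ≤ |S k| * (1 / 2) ^ k := fun u a b k => by
    rw [Real.norm_eq_abs, abs_mul, abs_of_nonneg (pow_nonneg a k)]
    gcongr
  have k : ∀ u : ℝ, 0 ≤ u → u ≤ 1 / 2 →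
      (derivative A).eval u = (∑' k, S k * u ^ k) * A.eval u := fun u a b => by
    rw [← (hasSum_eval A u).tsum_eq, ← (hasSum_eval _ u).tsum_eq,
      tsum_mul_tsum_eq_tsum_sum_range_of_summable_norm
        (Summable.of_nonneg_of_le (fun _ => norm_nonneg _) (le u a b) hS)
        (hasSum_eval A u).summable.norm]
    refine tsum_congr fun n => ?_
    have := h (n + 1)
    rw [coeff_derivative, mul_comm (A.coeff _), ← Nat.cast_succ, this, sum_mul]
    refine sum_congr rfl fun j hj => ?_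
    rw [Nat.add_sub_cancel, mul_mul_mul_comm, ← pow_add,
      Nat.add_sub_cancel' (Nat.lt_succ_iff.1 (mem_range.1 hj))]
  refine ⟨fun z => ?_, k _ (by norm_num) le_rfl⟩
  obtain ⟨B, h1, h2⟩ := exists_eq_pow_rootMultiplicity_mul_and_not_dvd A h0 (1 / 2)
  obtain ⟨m, hm⟩ := Nat.exists_eq_succ_of_ne_zero ((rootMultiplicity_pos h0).2 z).ne'
  rw [hm] at h1
  have h3 : ∀ᶠ u in 𝓝[<] (1 / 2 : ℝ), |(m + 1) * B.eval u + (u - 1 / 2) * (derivative B).eval u| ≤
      (∑' k, |S k| * (1 / 2) ^ k) * |(u - 1 / 2) * B.eval u| := by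
    filter_upwards [Ioo_mem_nhdsLT (show (0 : ℝ) < 1 / 2 by norm_num)] with u hu
    have e := k u hu.1.le hu.2.le
    have e2 : (m + 1) * B.eval u + (u - 1 / 2) * (derivative B).eval u =
        (∑' k, S k * u ^ k) * ((u - 1 / 2) * B.eval u) := by
      refine mul_left_cancel₀ (pow_ne_zero m (sub_ne_zero.2 hu.2.ne)) ?_
      rw [h1, derivative_mul, derivative_X_sub_C_pow] at e
      simp only [eval_add, eval_mul, eval_pow, eval_sub, eval_X, eval_C, Nat.succ_eq_add_one,
        Nat.add_sub_cancel, Nat.cast_add, Nat.cast_one] at e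
      linear_combination e
    rw [e2, abs_mul]
    exact mul_le_mul_of_nonneg_right (tsum_of_norm_bounded hS.hasSum (le u hu.1.le hu.2.le))
      (abs_nonneg _)
  have c1 : Continuous fun u : ℝ => |(m + 1) * B.eval u + (u - 1 / 2) * (derivative B).eval u| := by
    fun_prop
  have c2 : Continuous fun u : ℝ => (∑' k, |S k| * (1 / 2) ^ k) * |(u - 1 / 2) * B.eval u| := by
    fun_prop
  have h4 := le_of_tendsto_of_tendsto ((c1.tendsto _).mono_left nhdsWithin_le_nhds)
    ((c2.tendsto _).mono_left nhdsWithin_le_nhds) h3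
  simp only [sub_self, zero_mul, add_zero, abs_zero, mul_zero, abs_nonpos_iff, mul_eq_zero] at h4
  exact h2 (dvd_iff_isRoot.2 (h4.resolve_left (by positivity)))

theorem card_MM (d : ℕ) : (MM d).card ≤ 2 ^ (d + 1) := by
  refine (card_le_card_of_injOn (t := univ) (fun f (i : Fin (d + 1)) => f.coeff i)
    (fun _ _ => mem_univ _) fun f hf g hg q => Polynomial.ext fun i => ?_).trans (by simp)
  rcases lt_or_ge d i with h | h
  · rw [coeff_eq_zero_of_natDegree_lt ((mem_MM.1 hf).2 ▸ h),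
      coeff_eq_zero_of_natDegree_lt ((mem_MM.1 hg).2 ▸ h)]
  · exact congrFun q ⟨i, by omega⟩

theorem hasSum_monic (χ : F2[X] → ℂ) (hχ : ∀ f, ‖χ f‖ ≤ 1) {n : ℕ}
    (h : ∀ d, n ≤ d → ∑ f ∈ MM d, χ f = 0) {z : ℂ} (hz : ‖z‖ < 1 / 2) :
    HasSum (fun f : {f : F2[X] // f.Monic} => χ f * z ^ f.1.natDegree)
      (∑ d ∈ range n, (∑ f ∈ MM d, χ f) * z ^ d) := by
  let F : F2[X] → ℂ := {f : F2[X] | f.Monic}.indicator fun f => χ f * z ^ f.natDegree
  have g := (hasSum_geometric_of_lt_one (r := 2 * ‖z‖) (by positivity) (by linarith)).mul_left 2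
  have s : Summable F := Summable.of_norm (summable_of_sum_le (fun _ => norm_nonneg _) fun u => by
    rw [← sum_fiberwise_of_maps_to (g := natDegree) fun f hf => mem_image_of_mem _ hf]
    refine le_trans (sum_le_sum fun d _ => ?_) (sum_le_hasSum _ (fun _ _ => by positivity) g)
    rw [← sum_filter_add_sum_filter_not _ Monic, sum_eq_zero (s := filter (¬ Monic ·) _)
      fun f hf => by simp [F, (mem_filter.1 hf).2], add_zero]
    refine (sum_le_card_nsmul _ _ (‖z‖ ^ d) fun f hf => ?_).trans ?_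
    · obtain ⟨h1, h2⟩ := mem_filter.1 hf
      rw [show F f = χ f * z ^ f.natDegree from if_pos h2, norm_mul, norm_pow,
        (mem_filter.1 h1).2]
      exact mul_le_of_le_one_left (by positivity) (hχ f)
    · rw [nsmul_eq_mul, mul_pow, ← mul_assoc, ← pow_succ']
      refine mul_le_mul_of_nonneg_right ?_ (by positivity)
      exact_mod_cast (card_le_card fun f hf => mem_MM.2
        ⟨(mem_filter.1 hf).2, (mem_filter.1 (mem_filter.1 hf).1).2⟩).trans (card_MM d))
  have t := s.hasSum.tsum_fiberwise natDegree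
  have e : ∀ d, ∑' f : (natDegree ⁻¹' {d} : Set F2[X]), F f = (∑ f ∈ MM d, χ f) * z ^ d := fun d => by
    rw [_root_.tsum_subtype, tsum_eq_sum (s := MM d) fun f hf => ?_, sum_mul]
    · refine sum_congr rfl fun f hf => ?_
      obtain ⟨h1, h2⟩ := mem_MM.1 hf
      rw [Set.indicator_of_mem (by exact h2), ← h2]
      exact if_pos h1
    · by_cases c : f.natDegree = d
      · rw [Set.indicator_of_mem (by exact c)]
        exact if_neg fun q => hf (mem_MM.2 ⟨q, c⟩)
      · exact Set.indicator_of_notMem (by exact c) _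
  simp only [e] at t
  rw [← t.unique (hasSum_sum_of_ne_finset_zero fun d hd => by
    rw [h d (by simpa using hd), zero_mul])]
  exact hasSum_subtype_iff_indicator.2 s.hasSum

theorem main {n l t : ℕ} (ht : 100 ≤ t) (h1 : t * t ≤ l) (h2 : l < (t + 1) * (t + 1))
    (hn : 2 ^ l ≤ n) : ∃ χ : MulChar (QQ n) ℂ, χ ≠ 1 ∧ χ.IsQuadratic ∧ ∃ L : ℂ → ℂ,
      Differentiable ℂ L ∧ (∀ s : ℂ, 1 < s.re → HasSum (fun f : {f : F2[X] // f.Monic} =>
        χ (Ideal.Quotient.mk _ f.1) / ((2 : ℂ) ^ f.1.natDegree) ^ s) (L s)) ∧ L 1 ≠ 0 ∧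
      Real.log 2 * ((l + t / 8 : ℕ) - 3) ≤ (-(deriv L 1 / L 1)).re := by
  obtain ⟨T, c, hT, s1, s2⟩ := select ht h1 h2
  obtain ⟨n, rfl⟩ : ∃ m, n = m + 1 := ⟨n - 1, by have := Nat.one_le_two_pow (n := l); omega⟩
  obtain ⟨χ, hχ⟩ := exists_char (T := T) (c := c) (n := n) fun E hE =>
    (Nat.geomSum_lt le_rfl fun k hk => mem_range.1 ((hT E hE).1 hk)).trans_le hn
  have b1 : ∀ f, ch T c f = 0 ∨ ch T c f = 1 ∨ ch T c f = -1 := fun f => by
    unfold ch sg; split_ifs <;> simp
  have nm1 := sum_ch_nm (c := c) fun E hE => (hT E hE).2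
  have ne : χ ≠ 1 := fun q => by
    obtain ⟨k, hk⟩ := (s1.tendsto_atTop_zero.eventually (gt_mem_nhds (show (0 : ℝ) < 1 / 2 by
      norm_num))).exists
    have e1 : ∀ α : KK k, (1 : ℝ) - (if α = 0 then 1 else 0) ≤ ch T c (nm α) := fun α => by
      have e := hχ (nm α)
      by_cases u : IsUnit (Ideal.Quotient.mk (Ideal.span {(X ^ (n + 1) : F2[X])}) (nm α))
      · rw [q, MulChar.one_apply u] at e
        rw [Complex.ofReal_eq_one.1 e.symm]
        split_ifs <;> norm_num
      · rw [MulChar.map_nonunit _ u] at e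
        split_ifs with z
        · rw [Complex.ofReal_eq_zero.1 e.symm, sub_self]
        · have := Complex.ofReal_eq_zero.1 e.symm
          rw [ch, if_neg (ld_nm z).1] at this
          simpa [this] using abs_sg (∑ E ∈ T, c E * PowerSeries.coeff (jj E) (ld (nm α)))
    have e2 := sum_le_sum fun α (_ : α ∈ univ) => e1 α
    rw [nm1, sum_sub_distrib, sum_ite_eq', if_pos (mem_univ _), sum_const, card_univ,
      card_KK] at e2
    simp only [nsmul_eq_mul, Nat.cast_pow, Nat.cast_ofNat, mul_one] at e2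
    nlinarith [le_abs_self (bb T c k), pow_pos (two_pos (α := ℝ)) (k + 1)]
  have z0 : ∀ d, n + 1 ≤ d → ∑ f ∈ MM d, (ch T c f : ℂ) = 0 := fun d hd => by
    simpa only [hχ] using sum_MM_zero ne hd
  let A : ℝ[X] := ∑ d ∈ range (n + 1), monomial d (∑ f ∈ MM d, ch T c f)
  have a1 : ∀ d, A.coeff d = ∑ f ∈ MM d, ch T c f := fun d => by
    simp only [A, finsetSum_coeff, coeff_monomial, sum_ite_eq', mem_range]
    split_ifs with q
    · rfl
    · exact_mod_cast (z0 d (not_lt.1 q)).symm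
  have a0 : A ≠ 0 := fun q => by
    have := a1 0
    rw [q, coeff_zero, show MM 0 = {1} from Finset.ext fun f => by
      rw [mem_MM, mem_singleton]
      exact ⟨fun h => h.1.natDegree_eq_zero.1 h.2, fun h => h ▸ ⟨monic_one, natDegree_one⟩⟩,
      sum_singleton, ch_one] at this
    exact zero_ne_one this
  have g := hasSum_geometric_two
  have e : ∀ k, (2 ^ (k + 1) * bb T c k - 1) * (1 / 2 : ℝ) ^ k = 2 * bb T c k - (1 / 2) ^ k :=
    fun k => by rw [one_div_pow]; field_simp; ring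
  obtain ⟨l1, l2⟩ := logder a0 (S := fun k => 2 ^ (k + 1) * bb T c k - 1) (by
    refine ((s1.of_abs.mul_left 2).sub g.summable).abs.congr fun k => ?_
    rw [← e, abs_mul, abs_of_nonneg (a := (1 / 2 : ℝ) ^ k) (by positivity)]) fun m => by
      simp only [a1, ← nm1]
      exact euler _ ch_mul m
  simp only [e] at l2
  rw [((s1.of_abs.hasSum.mul_left 2).sub g).tsum_eq] at l2
  have d0 : ∀ s : ℂ, HasDerivAt (fun s : ℂ => aeval ((2 : ℂ) ^ (-s)) A)
      (aeval ((2 : ℂ) ^ (-s)) (derivative A) * (2 ^ (-s) * Complex.log 2 * -1)) s := fun s =>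
    (A.hasDerivAt_aeval _).comp s ((hasDerivAt_neg s).const_cpow (Or.inl two_ne_zero))
  have v : ∀ P : ℝ[X], aeval ((2 : ℂ) ^ (-1 : ℂ)) P = (P.eval (1 / 2) : ℝ) := fun P => by
    rw [Complex.cpow_neg_one, show (2 : ℂ)⁻¹ = algebraMap ℝ ℂ (1 / 2) by simp,
      aeval_algebraMap_apply_eq_algebraMap_eval]
    rfl
  refine ⟨χ, ne, fun a => ?_, _, fun s => (d0 s).differentiableAt, fun s hs => ?_, ?_, ?_⟩
  · obtain ⟨f, rfl⟩ := Ideal.Quotient.mk_surjective a
    rw [hχ]
    exact_mod_cast b1 f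
  · have := hasSum_monic (fun f => ch T c f) (fun f => by
      rcases b1 f with q | q | q <;> simp [q]) z0 (z := (2 : ℂ) ^ (-s)) (by
        rw [show (2 : ℂ) = ((2 : ℝ) : ℂ) by simp, Complex.norm_cpow_eq_rpow_re_of_pos two_pos,
          one_div, ← Real.rpow_neg_one]
        exact Real.rpow_lt_rpow_of_exponent_lt one_lt_two (by simpa using hs))
    convert this using 2
    · rw [hχ, div_eq_mul_inv, Complex.cpow_neg, inv_pow, ← Complex.cpow_nat_mul]
      congr 2
      exact_mod_cast (Complex.natCast_cpow_natCast_mul 2 _ s).symm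
    · simp [A, sum_mul]
  · simp only [v]
    exact_mod_cast l1
  · simp only [(d0 1).deriv, v, l2]
    have : -((((2 * ∑' k, bb T c k - 2) * A.eval (1 / 2) : ℝ) : ℂ) *
        (2 ^ (-1 : ℂ) * Complex.log 2 * -1) / (A.eval (1 / 2) : ℝ)) =
        (Real.log 2 * (∑' k, bb T c k - 1) : ℝ) := by
      have := Complex.ofReal_ne_zero.2 l1
      rw [Complex.cpow_neg_one]
      push_cast
      field_simp
      rw [Complex.ofReal_log two_pos.le, Complex.ofReal_ofNat]
    rw [this, Complex.ofReal_re]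
    exact mul_le_mul_of_nonneg_left (by linarith) (Real.log_pos one_lt_two).le

end Pool.Agent.MP_34d6af_nt.FF

end
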