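import Pool.Agent.MP_34d6af_nt.ff.Euler

/-! Real characters modulo a power of the variable, through logarithmic derivatives. -/

set_option autoImplicit false
set_option linter.unusedSectionVars false

noncomputable section

namespace Pool.Agent.MP_34d6af_nt.FF

open Finset Classical Polynomial

/-- the logarithmic derivative as a series -/
def ld (f : F2[X]) : PowerSeries F2 :=
  ((X * derivative f : F2[X]) : PowerSeries F2) * (f : PowerSeries F2)⁻¹

theorem mul_ld {f : F2[X]} (h : f.coeff 0 ≠ 0) :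
    (f : PowerSeries F2) * ld f = ((X * derivative f : F2[X]) : PowerSeries F2) := by
  rw [ld, mul_left_comm, PowerSeries.mul_inv_cancel _ (by simpa using h), mul_one]

theorem unit_coe {f : F2[X]} (h : f.coeff 0 ≠ 0) : IsUnit (f : PowerSeries F2) :=
  PowerSeries.isUnit_iff_constantCoeff.2 (Ne.isUnit (by simpa using h))

theorem ld_mul {f g : F2[X]} (hf : f.coeff 0 ≠ 0) (hg : g.coeff 0 ≠ 0) :
    ld (f * g) = ld f + ld g := by
  have h : (f * g).coeff 0 ≠ 0 := by rw [mul_coeff_zero]; exact mul_ne_zero hf hg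
  refine (unit_coe h).mul_left_cancel ?_
  have h1 := mul_ld hf
  have h2 := mul_ld hg
  rw [mul_ld h, derivative_mul]
  push_cast at h1 h2 ⊢
  linear_combination (-(g : PowerSeries F2)) * h1 - (f : PowerSeries F2) * h2

theorem ld_congr {n : ℕ} {g h : F2[X]} (hg : g.coeff 0 ≠ 0) {j : ℕ} (hj : j < n + 1) :
    PowerSeries.coeff j (ld (g + X ^ (n + 1) * h)) = PowerSeries.coeff j (ld g) := by
  have hf : (g + X ^ (n + 1) * h).coeff 0 ≠ 0 := by simpa [pow_succ'] using hg
  have h1 := mul_ld hf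
  have h2 := mul_ld hg
  rw [← sub_eq_zero, ← map_sub]
  refine PowerSeries.X_pow_dvd_iff.1 (((unit_coe hf).mul (unit_coe hg)).dvd_mul_left.1
    ⟨((g * (C ((n : F2) + 1) * h + X * derivative h) - X * h * derivative g : F2[X]) :
      PowerSeries F2), ?_⟩) j hj
  rw [derivative_add, derivative_mul, derivative_X_pow_succ] at h1
  push_cast at h1 h2 ⊢
  linear_combination (g : PowerSeries F2) * h1 -
    ((g : PowerSeries F2) + PowerSeries.X ^ (n + 1) * (h : PowerSeries F2)) * h2

theorem ld_nm {K : Type} [Field K] [Fintype K] [Algebra F2 K] {α : K} (hα : α ≠ 0) :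
    (nm α).coeff 0 ≠ 0 ∧ ∀ j, j ≠ 0 → PowerSeries.coeff j (ld (nm α)) = tr (α⁻¹ ^ j) := by
  have := char2 K
  have h0 : (nm α).coeff 0 ≠ 0 := by
    rw [← map_ne_zero (algebraMap F2 K), ← coeff_map, nm_map, coeff_zero_prod]
    exact prod_ne_zero_iff.2 fun σ _ => by simpa using hα
  refine ⟨h0, fun j hj => (algebraMap F2 K).injective ?_⟩
  let s : K → PowerSeries K := fun a => PowerSeries.mk fun j => if j = 0 then 0 else -a⁻¹ ^ j
  have h1 : ∀ a : K, a ≠ 0 → ((X - C a : K[X]) : PowerSeries K) * s a = PowerSeries.X := by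
    intro a ha
    push_cast
    ext j
    rw [sub_mul, map_sub, PowerSeries.coeff_C_mul]
    rcases j with _ | _ | j
    · simp [s]
    · simp [s, PowerSeries.coeff_succ_X_mul, ha]
    · simp only [s, PowerSeries.coeff_succ_X_mul, PowerSeries.coeff_mk, PowerSeries.coeff_X]
      simp [pow_succ', ha]
  have h2 : ∀ T : Finset Gal(K/F2), ((∏ σ ∈ T, (X - C (σ α)) : K[X]) : PowerSeries K) *
      ∑ σ ∈ T, s (σ α) = ((X * derivative (∏ σ ∈ T, (X - C (σ α))) : K[X]) : PowerSeries K) := by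
    intro T
    induction T using Finset.induction_on with
    | empty => simp
    | insert σ T hσ ih =>
      have h3 := h1 (σ α) (by simpa using hα)
      rw [prod_insert hσ, sum_insert hσ, derivative_mul, derivative_X_sub_C]
      generalize (∏ σ ∈ T, (X - C (σ α)) : K[X]) = P at ih ⊢
      generalize (X - C (σ α) : K[X]) = Q at h3 ⊢
      push_cast at ih ⊢
      linear_combination (P : PowerSeries K) * h3 + (Q : PowerSeries K) * ih
  have h3 := congrArg (PowerSeries.map (algebraMap F2 K)) (mul_ld h0)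
  rw [map_mul, ← polynomial_map_coe, ← polynomial_map_coe, Polynomial.map_mul, map_X,
    ← derivative_map, nm_map, ← h2] at h3
  have h4 := mul_left_cancel₀ (coe_eq_zero_iff.not.2
    (monic_prod_of_monic _ _ fun _ _ => monic_X_sub_C _).ne_zero) h3
  rw [← PowerSeries.coeff_map, h4, trace_eq_sum_automorphisms, map_sum]
  simp [s, hj, CharTwo.neg_eq]

/-- the exponent with binary digits `E` -/
def jj (E : Finset ℕ) : ℕ := ∑ e ∈ E, 2 ^ e

/-- the character -/
def ch (T : Finset (Finset ℕ)) (c : Finset ℕ → F2) (f : F2[X]) : ℝ :=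
  if f.coeff 0 = 0 then 0 else sg (∑ E ∈ T, c E * PowerSeries.coeff (jj E) (ld f))

variable {T : Finset (Finset ℕ)} {c : Finset ℕ → F2}

theorem ch_mul (f g : F2[X]) : ch T c (f * g) = ch T c f * ch T c g := by
  by_cases hf : f.coeff 0 = 0
  · simp [ch, hf]
  by_cases hg : g.coeff 0 = 0
  · simp [ch, hg]
  simp [ch, hf, hg, ld_mul hf hg, mul_add, sum_add_distrib, sg_add]

theorem ch_one : ch T c 1 = 1 := by simp [ch, ld, sg_zero]

theorem ch_congr {n : ℕ} (hT : ∀ E ∈ T, jj E < n + 1) {f g : F2[X]} (h : X ^ (n + 1) ∣ f - g) :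
    ch T c f = ch T c g := by
  obtain ⟨h, e⟩ := h
  obtain rfl := eq_add_of_sub_eq' e
  have : (g + X ^ (n + 1) * h).coeff 0 = g.coeff 0 := by simp [pow_succ']
  rw [ch, ch, this]
  split_ifs with q
  · rfl
  · exact congrArg sg (sum_congr rfl fun E hE => by rw [ld_congr q (hT E hE)])

theorem sum_ch_nm (hT : ∀ E ∈ T, E.Nonempty) (k : ℕ) :
    ∑ α : KK k, ch T c (nm α) = 2 ^ (k + 1) * bb T c k - 1 := by
  have j0 : ∀ E ∈ T, jj E ≠ 0 := fun E hE => (sum_pos (fun _ _ => by positivity) (hT E hE)).ne'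
  have m : ∀ (E : Finset ℕ) (x : KK k), mo E x = x ^ jj E := fun E x => prod_pow_eq_pow_sum _ _ _
  have h0 : ch T c (nm (0 : KK k)) = 0 := if_pos (by
    rw [← map_eq_zero (algebraMap F2 (KK k)), ← coeff_map, nm_map, coeff_zero_prod]
    exact prod_eq_zero (mem_univ 1) (by simp))
  have h1 : ∀ α : KK k, ch T c (nm α) = sg (tr (ph T c α⁻¹)) - if α = 0 then 1 else 0 := by
    intro α
    split_ifs with q
    · rw [q, h0, tr_ph, sum_eq_zero fun E hE => by simp [m, j0 E hE], sg_zero, sub_self]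
    · rw [ch, if_neg (ld_nm q).1, tr_ph, sub_zero]
      exact congrArg sg (sum_congr rfl fun E hE => by rw [(ld_nm q).2 _ (j0 E hE), m])
  simp only [h1, sum_sub_distrib, sum_ite_eq', mem_univ, if_true]
  rw [bb, bias, card_KK, Nat.cast_pow, Nat.cast_ofNat, mul_div_cancel₀ _ (by positivity)]
  congr 1
  exact Equiv.sum_comp (Equiv.inv _) fun x : KK k => sg (tr (ph T c x))

abbrev QQ (n : ℕ) : Type := F2[X] ⧸ Ideal.span {(X ^ n : F2[X])}

theorem exists_char {n : ℕ} (hT : ∀ E ∈ T, jj E < n + 1) :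
    ∃ χ : MulChar (QQ (n + 1)) ℂ, ∀ f, χ (Ideal.Quotient.mk _ f) = ch T c f := by
  choose r hr using Ideal.Quotient.mk_surjective (I := Ideal.span {(X ^ (n + 1) : F2[X])})
  have h : ∀ f, ch T c (r (Ideal.Quotient.mk _ f)) = ch T c f := fun f =>
    ch_congr hT (Ideal.mem_span_singleton.1 (Ideal.Quotient.eq.1 (hr _)))
  refine ⟨⟨⟨⟨fun a => ch T c (r a), ?_⟩, fun a b => ?_⟩, fun a ha => ?_⟩, fun f => ?_⟩
  · rw [← map_one (Ideal.Quotient.mk _), h, ch_one, Complex.ofReal_one]
  · rw [← Complex.ofReal_mul, ← ch_mul, ← h (r a * r b), map_mul, hr, hr]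
  · refine Complex.ofReal_eq_zero.2 (if_pos ?_)
    by_contra q
    obtain ⟨u, v, e⟩ := (irreducible_X.coprime_iff_not_dvd.2
      (X_dvd_iff.not.2 q)).pow_left (m := n + 1)
    have := congrArg (Ideal.Quotient.mk (Ideal.span {(X ^ (n + 1) : F2[X])})) e
    rw [map_add, map_mul, map_mul, Ideal.Quotient.mk_singleton_self, mul_zero, zero_add, hr,
      map_one] at this
    exact ha (IsUnit.of_mul_eq_one_right _ this)
  · exact congrArg Complex.ofReal (h f)

instance (n : ℕ) : Finite (QQ n) :=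
  have := (monic_X_pow n : (X ^ n : F2[X]).Monic).finite_quotient
  Module.finite_of_finite F2

theorem sum_MM_zero {n d : ℕ} {χ : MulChar (QQ n) ℂ} (hχ : χ ≠ 1) (hd : n ≤ d) :
    ∑ f ∈ MM d, χ (Ideal.Quotient.mk _ f) = 0 := by
  have := Fintype.ofFinite (QQ n)
  have k : ∀ a b : QQ n, ((MM d).filter fun f => Ideal.Quotient.mk _ f = a).card ≤
      ((MM d).filter fun f => Ideal.Quotient.mk _ f = b).card := fun a b => by
    obtain ⟨r, hr⟩ := Ideal.Quotient.mk_surjective (b - a)
    have h1 : Ideal.Quotient.mk _ (r %ₘ X ^ n) = b - a := hr ▸ Ideal.Quotient.eq.2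
      (Ideal.mem_span_singleton.2 (by rw [modByMonic_eq_sub_mul_div]; simp))
    refine card_le_card_of_injOn (· + r %ₘ X ^ n) (fun f hf => ?_) fun _ _ _ _ => add_right_cancel
    obtain ⟨h2, h3⟩ := mem_filter.1 hf
    obtain ⟨h4, h5⟩ := mem_MM.1 h2
    have h6 : (r %ₘ X ^ n).degree < f.degree := (degree_modByMonic_lt r (monic_X_pow n)).trans_le
      (by rw [degree_X_pow, degree_eq_natDegree h4.ne_zero, h5]; exact_mod_cast hd)
    exact mem_filter.2 ⟨mem_MM.2 ⟨h4.add_of_left h6,
      (natDegree_add_eq_left_of_degree_lt h6).trans h5⟩, by rw [map_add, h1, h3, add_sub_cancel]⟩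
  rw [← sum_fiberwise_of_maps_to (g := Ideal.Quotient.mk _) (t := (univ : Finset (QQ n)))
      fun _ _ => mem_univ _,
    sum_congr rfl fun a _ => sum_congr rfl fun f hf => by rw [(mem_filter.1 hf).2]]
  simp only [sum_const, fun a => (k a 0).antisymm (k 0 a), ← smul_sum,
    MulChar.sum_eq_zero_of_ne_one hχ, smul_zero]

end Pool.Agent.MP_34d6af_nt.FF

end
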