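import Pool.Agent.MP_34d6af_nt.ff.Weyl

/-! Counting necklaces: many phases of bounded weight have trace zero on all small fields. -/

set_option autoImplicit false
set_option linter.unusedSectionVars false

noncomputable section

namespace Pool.Agent.MP_34d6af_nt.FF

open Finset Classical

section Gal

variable {K : Type} [Field K] [Fintype K] [Algebra F2 K]

abbrev fr (K : Type) [Field K] [Fintype K] [Algebra F2 K] : Gal(K/F2) :=
  FiniteField.frobeniusAlgEquivOfAlgebraic F2 K

theorem fr_apply (x : K) : fr K x = x ^ 2 := by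
  rw [FiniteField.coe_frobeniusAlgEquivOfAlgebraic, ZMod.card]

theorem carry (n : ℕ) : ∀ (S : Finset Gal(K/F2)) (τ : Gal(K/F2)), S.card = n →
    ∃ S' : Finset Gal(K/F2), S'.card ≤ n + 1 ∧ ∀ x, ∏ σ ∈ S', σ x = τ x * ∏ σ ∈ S, σ x := by
  induction n with
  | zero =>
    intro S τ h
    exact ⟨{τ}, by simp, fun x => by simp [card_eq_zero.1 h]⟩
  | succ n ih =>
    intro S τ h
    by_cases c : τ ∈ S
    · obtain ⟨S', h1, h2⟩ := ih (S.erase τ) (fr K * τ) (by rw [card_erase_of_mem c]; omega)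
      refine ⟨S', by omega, fun x => ?_⟩
      rw [h2, ← mul_prod_erase S _ c, AlgEquiv.mul_apply, fr_apply, sq, mul_assoc]
    · exact ⟨insert τ S, by rw [card_insert_of_notMem c, h], fun x => prod_insert c⟩

theorem mo_gal (E : Finset ℕ) :
    ∃ S : Finset Gal(K/F2), S.card ≤ E.card ∧ ∀ x : K, mo E x = ∏ σ ∈ S, σ x := by
  have p : ∀ (e : ℕ) (x : K), (fr K ^ e) x = x ^ 2 ^ e := fun e => by
    induction e with
    | zero => simp
    | succ e ih => exact fun x => by rw [pow_succ', AlgEquiv.mul_apply, fr_apply, ih, ← pow_mul,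
        ← pow_succ]
  induction E using Finset.induction_on with
  | empty => exact ⟨∅, le_rfl, fun _ => rfl⟩
  | insert e E he ih =>
    obtain ⟨S, h1, h2⟩ := ih
    obtain ⟨S', h3, h4⟩ := carry _ S (fr K ^ e) rfl
    exact ⟨S', by rw [card_insert_of_notMem he]; omega, fun x => by
      rw [h4, p, ← h2, mo, prod_insert he, mo]⟩

end Gal

/-- the number of subsets with at most `w` elements -/
def TT (d w : ℕ) : ℕ := ∑ i ∈ range (w + 1), d.choose i

theorem card_small (G : Type) [Fintype G] (w : ℕ) :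
    (univ.filter fun S : Finset G => S.card ≤ w).card ≤ TT (Fintype.card G) w := by
  refine (card_le_card (t := (range (w + 1)).biUnion fun i => powersetCard i univ)
    fun S hS => ?_).trans (card_biUnion_le.trans ?_)
  · exact mem_biUnion.2 ⟨_, mem_range.2 (Nat.lt_succ_of_le (mem_filter.1 hS).2),
      mem_powersetCard.2 ⟨subset_univ _, rfl⟩⟩
  · simp [TT]

theorem card_sym (G : Type) [Group G] [Fintype G] [DecidableEq G] (v : ℕ) {g : G} (hg : g ≠ 1) :
    (univ.filter fun S : Finset G => S.card ≤ 2 * v ∧ S.image (g * ·) = S).card ≤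
      TT (Fintype.card G) v := by
  let r : G → G := fun x => (Quotient.mk (MulAction.orbitRel (Subgroup.zpowers g) G) x).out
  have inv : ∀ S : Finset G, S.image (g * ·) = S → ∀ x ∈ S, ∀ y, r y = r x → y ∈ S := by
    intro S hS x hx y q
    obtain ⟨⟨_, h⟩, rfl⟩ := Quotient.exact (Quotient.out_injective q)
    obtain ⟨n, rfl⟩ := mem_powers_iff_mem_zpowers.2 h
    change g ^ n * x ∈ S
    clear q h
    induction n with
    | zero => simpa using hx
    | succ n ih => rw [pow_succ', mul_assoc, ← hS]; exact mem_image_of_mem _ ih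
  refine le_trans (card_le_card_of_injOn (fun S => S.image r) (fun S hS => ?_)
    fun S hS S' hS' q => ?_) (card_small G v)
  · obtain ⟨-, h1, h2⟩ := mem_filter.1 hS
    refine mem_filter.2 ⟨mem_univ _, Nat.le_of_mul_le_mul_left (le_trans
      (mul_card_image_le_card S 2 fun y hy => ?_) h1) two_pos⟩
    obtain ⟨x, hx, rfl⟩ := mem_image.1 hy
    have h3 : r (g * x) = r x := congrArg Quotient.out
      (Quotient.sound ⟨⟨g, Subgroup.mem_zpowers g⟩, rfl⟩)
    exact one_lt_card.2 ⟨x, mem_filter.2 ⟨hx, rfl⟩, g * x,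
      mem_filter.2 ⟨inv S h2 x hx _ h3, h3⟩, fun e => hg (by simpa using e.symm)⟩
  · have k : ∀ S S' : Finset G, S'.image (g * ·) = S' → S.image r = S'.image r → S ⊆ S' :=
      fun S S' h q x hx => by
        obtain ⟨y, hy, e⟩ := mem_image.1 (q ▸ mem_image_of_mem r hx)
        exact inv S' h y hy x e.symm
    exact (k _ _ (mem_filter.1 hS').2.2 q).antisymm (k _ _ (mem_filter.1 hS).2.2 q.symm)

theorem card_orb {G β : Type} [Group G] [Fintype G] [DecidableEq G] [DecidableEq β] (v : ℕ)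
    (f : Finset G → β)
    (hf : ∀ g S, f (S.image (g * ·)) = f S) :
    (((univ.filter fun S : Finset G => S.card ≤ 2 * v).image f).card : ℝ) ≤
      TT (Fintype.card G) (2 * v) / Fintype.card G + Fintype.card G * TT (Fintype.card G) v := by
  let A := univ.filter fun S : Finset G => S.card ≤ 2 * v ∧ ∀ g, S.image (g * ·) = S → g = 1
  let B := (univ.erase (1 : G)).biUnion fun g =>
    univ.filter fun S : Finset G => S.card ≤ 2 * v ∧ S.image (g * ·) = S
  have h1 : (univ.filter fun S : Finset G => S.card ≤ 2 * v).image f ⊆ A.image f ∪ B.image f := by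
    rw [← image_union]
    refine image_subset_image fun S hS => ?_
    have := (mem_filter.1 hS).2
    by_cases c : ∀ g, S.image (g * ·) = S → g = 1
    · exact mem_union_left _ (mem_filter.2 ⟨mem_univ _, this, c⟩)
    · push Not at c
      obtain ⟨g, c1, c2⟩ := c
      exact mem_union_right _ (mem_biUnion.2 ⟨g, mem_erase.2 ⟨c2, mem_univ _⟩,
        mem_filter.2 ⟨mem_univ _, this, c1⟩⟩)
  have h2 : Fintype.card G * (A.image f).card ≤ TT (Fintype.card G) (2 * v) := by
    refine le_trans (mul_card_image_le_card_of_maps_to (t := A.image f)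
      (s := (univ.filter fun S : Finset G => S.card ≤ 2 * v).filter fun S => f S ∈ A.image f)
      (fun S hS => (mem_filter.1 hS).2) _ fun b hb => ?_)
      ((card_filter_le _ _).trans (card_small G _))
    obtain ⟨S, hS, rfl⟩ := mem_image.1 hb
    obtain ⟨-, h3, h4⟩ := mem_filter.1 hS
    refine card_le_card_of_injOn (fun g => S.image (g * ·)) (fun g _ => ?_) fun g _ g' _ q => ?_
    · exact mem_filter.2 ⟨mem_filter.2 ⟨mem_filter.2 ⟨mem_univ _, card_image_le.trans h3⟩,
        hf g S ▸ hb⟩, hf g S⟩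
    · have := congrArg (image (g'⁻¹ * ·)) q
      simp only [image_image, Function.comp_def, ← mul_assoc, inv_mul_cancel, one_mul,
        image_id'] at this
      exact (inv_mul_eq_one.1 (h4 _ this)).symm
  have h3 : (B.image f).card ≤ Fintype.card G * TT (Fintype.card G) v :=
    card_image_le.trans (card_biUnion_le.trans ((sum_le_card_nsmul _ _ _ fun g hg =>
      card_sym G v (ne_of_mem_erase hg)).trans (Nat.mul_le_mul_right _ (card_le_univ _))))
  have h4 : (0 : ℝ) < Fintype.card G := by exact_mod_cast Fintype.card_pos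
  refine (Nat.cast_le.2 ((card_le_card h1).trans (card_union_le _ _))).trans ?_
  rw [Nat.cast_add]
  refine add_le_add ((le_div_iff₀' h4).2 ?_) ?_
  · exact_mod_cast h2
  · exact_mod_cast h3

theorem card_fun {K : Type} [Field K] [Fintype K] [Algebra F2 K] {d : ℕ}
    (hd : Module.finrank F2 K = d) (l v : ℕ) :
    (((EE l (2 * v)).image fun E => fun x : K => tr (mo E x)).card : ℝ) ≤
      TT d (2 * v) / d + d * TT d v := by
  have h := card_orb (G := Gal(K/F2)) v (fun S => fun x : K => tr (∏ σ ∈ S, σ x)) fun g S => by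
    ext x
    rw [prod_image fun a _ b _ => mul_left_cancel, tr, ← Algebra.trace_eq_of_algEquiv g (∏ σ ∈ S, σ x),
      map_prod g]
    rfl
  rw [Fintype.card_eq_nat_card, IsGalois.card_aut_eq_finrank, hd] at h
  refine le_trans (Nat.cast_le.2 (card_le_card fun f hf => ?_)) h
  obtain ⟨E, hE, rfl⟩ := mem_image.1 hf
  obtain ⟨S, h1, h2⟩ := mo_gal (K := K) E
  exact mem_image.2 ⟨S, mem_filter.2 ⟨mem_univ _, h1.trans_eq (mem_EE.1 hE).1.2⟩, by
    simp only [h2]⟩

/-! ### binomial coefficients -/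

theorem ch_two {D i : ℕ} (h : 3 * i + 2 ≤ D) : 2 * D.choose i ≤ D.choose (i + 1) := by
  refine Nat.le_of_mul_le_mul_right ?_ (Nat.succ_pos i)
  rw [Nat.succ_eq_add_one, Nat.choose_succ_right_eq, mul_comm 2, mul_assoc]
  exact Nat.mul_le_mul_left _ (by omega)

theorem ch_pow {D i : ℕ} (j : ℕ) (h : 3 * (i + j) ≤ D) : 2 ^ j * D.choose i ≤ D.choose (i + j) := by
  induction j with
  | zero => simp
  | succ j ih =>
    rw [pow_succ', mul_assoc]
    exact (Nat.mul_le_mul_left 2 (ih (by omega))).trans (ch_two (by omega))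

theorem TT_le {D w : ℕ} (h : 3 * w ≤ D) : TT D w ≤ 2 * D.choose w := by
  induction w with
  | zero => simp [TT]
  | succ w ih =>
    have := ih (by omega)
    have := ch_two (D := D) (i := w) (by omega)
    rw [TT, sum_range_succ, ← TT]
    omega

theorem TT_mono {d D : ℕ} (h : d ≤ D) (w : ℕ) : TT d w ≤ TT D w :=
  sum_le_sum fun i _ => Nat.choose_le_choose i h

theorem hockey (i D : ℕ) :
    ∑ d ∈ range D, (((d + 1).choose (i + 1) : ℝ) / (d + 1 : ℕ)) = D.choose (i + 1) / (i + 1) := by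
  induction D with
  | zero => simp
  | succ D ih =>
    have h : ((D + 1 : ℕ) : ℝ) * D.choose i = (D + 1).choose (i + 1) * (i + 1 : ℕ) := by
      exact_mod_cast Nat.add_one_mul_choose_eq D i
    rw [sum_range_succ, ih, Nat.choose_succ_succ' D i] 
    rw [Nat.choose_succ_succ' D i] at h
    push_cast at h ⊢
    field_simp
    linarith

theorem sum_TT {D v : ℕ} (hv : 1 ≤ v) :
    ∑ d ∈ range D, ((TT (d + 1) (2 * v) : ℝ) / (d + 1 : ℕ)) ≤ D + TT D (2 * v) / v + TT D v := by
  have v0 : (0 : ℝ) < v := by exact_mod_cast hv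
  simp only [TT, Nat.cast_sum, sum_div]
  rw [sum_comm, sum_range_succ']
  simp only [hockey]
  have h1 : ∑ d ∈ range D, (((d + 1).choose 0 : ℝ) / (d + 1 : ℕ)) ≤ D :=
    (sum_le_card_nsmul _ _ 1 fun d _ => by
      rw [Nat.choose_zero_right, div_le_one (by positivity)]
      exact_mod_cast Nat.le_add_left 1 d).trans (by simp)
  have h2 : ∑ i ∈ range (2 * v), ((D.choose (i + 1) : ℝ) / (i + 1)) ≤ ∑ i ∈ range (2 * v),
      ((D.choose (i + 1) : ℝ) / v + if i < v then (D.choose (i + 1) : ℝ) else 0) :=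
    sum_le_sum fun i _ => by
      split_ifs with c
      · exact (div_le_self (by positivity) (by simp)).trans (le_add_of_nonneg_left (by positivity))
      · rw [add_zero]
        exact div_le_div_of_nonneg_left (by positivity) v0 (by exact_mod_cast (by omega))
  rw [sum_add_distrib, ← sum_filter, show (range (2 * v)).filter (· < v) = range v by
    ext; simp; omega] at h2
  rw [sum_range_succ' _ (2 * v), sum_range_succ' _ v]
  have : (0 : ℝ) ≤ (D.choose 0 : ℝ) / v := by positivity
  have : (0 : ℝ) ≤ (D.choose 0 : ℝ) := by positivity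
  linarith

theorem ch_up {l w : ℕ} (h : w < l) (Δ : ℕ) :
    ((l + Δ).choose w : ℝ) ≤ Real.exp (w * Δ / (l - w)) * l.choose w := by
  have h0 : (0 : ℝ) < l - w := sub_pos.2 (by exact_mod_cast h)
  induction Δ with
  | zero => simp
  | succ Δ ih =>
    have h1 : ((l + Δ).choose w : ℝ) * (l + Δ + 1) = (l + Δ + 1).choose w * (l + Δ + 1 - w) := by
      have := Nat.choose_mul_succ_eq (l + Δ) w
      rw [← Nat.cast_add, ← Nat.cast_succ, ← Nat.cast_sub (by omega)]
      exact_mod_cast this
    have h2 : (0 : ℝ) < l + Δ + 1 - w := by linarith [Nat.cast_nonneg (α := ℝ) Δ]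
    have h3 : ((l + Δ + 1).choose w : ℝ) = (w / (l + Δ + 1 - w) + 1) * (l + Δ).choose w := by
      field_simp
      linarith
    rw [← add_assoc, h3, Nat.cast_succ, mul_add, mul_one, add_div, add_comm ((w * Δ : ℝ) / _),
      Real.exp_add, mul_assoc]
    refine mul_le_mul (le_trans ?_ (Real.add_one_le_exp _)) ih (by positivity) (by positivity)
    exact add_le_add_left (div_le_div_of_nonneg_left (by positivity) h0
      (by linarith [Nat.cast_nonneg (α := ℝ) Δ])) 1

theorem card_EE (l k : ℕ) : l.choose k ≤ (EE (l + 1) (k + 1)).card := by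
  have h : ((range (l + 1)).erase 0).card = l := by simp
  rw [← h, ← card_powersetCard, h]
  have n : ∀ S ∈ powersetCard k ((range (l + 1)).erase 0), 0 ∉ S := fun S hS q => by
    simpa using (mem_powersetCard.1 hS).1 q
  refine card_le_card_of_injOn (insert 0) (fun S hS => mem_EE.2 ⟨⟨insert_subset (by simp)
    ((mem_powersetCard.1 hS).1.trans (erase_subset _ _)), ?_⟩, mem_insert_self _ _⟩)
    fun S hS S' hS' q => ?_
  · rw [card_insert_of_notMem (n S hS), (mem_powersetCard.1 hS).2]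
  · rw [← erase_insert (n S hS), q, erase_insert (n S' hS')]

theorem pow_big {t : ℕ} (h : 24 ≤ t) : 600 * (t + 1) ^ 6 ≤ 8 ^ t := by
  induction t, h using Nat.le_induction with
  | base => norm_num
  | succ t ht ih =>
    have := Nat.pow_le_pow_left (show 3 * (t + 1 + 1) ≤ 4 * (t + 1) by omega) 6
    rw [mul_pow, mul_pow] at this
    rw [pow_succ 8]
    omega

theorem budget {l t : ℕ} (ht : 100 ≤ t) (h1 : t * t ≤ l) (h2 : l < (t + 1) * (t + 1)) :
    2 * ∑ d ∈ range (l + t / 8), ((TT (d + 1) (2 * (3 * t)) : ℝ) / (d + 1 : ℕ) +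
      (d + 1 : ℕ) * TT (d + 1) (3 * t)) ≤ (EE l (2 * (3 * t))).card := by
  set D := l + t / 8 with hD
  have a1 : 100 * t ≤ l := (Nat.mul_le_mul_right t ht).trans h1
  have t0 : (100 : ℝ) ≤ t := by exact_mod_cast ht
  have b1 := sum_TT (D := D) (v := 3 * t) (by omega)
  have b2 : ∑ d ∈ range D, (((d + 1 : ℕ) : ℝ) * TT (d + 1) (3 * t)) ≤ D * (D * TT D (3 * t)) :=
    (sum_le_card_nsmul _ _ (D * TT D (3 * t) : ℝ) fun d hd => by
      have := mem_range.1 hd
      exact_mod_cast Nat.mul_le_mul this (TT_mono this _)).trans (by simp)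
  have b3 : (TT D (2 * (3 * t)) : ℝ) ≤ 2 * D.choose (2 * (3 * t)) := by
    exact_mod_cast TT_le (by omega)
  have b4 : (TT D (3 * t) : ℝ) ≤ 2 * D.choose (3 * t) := by exact_mod_cast TT_le (by omega)
  have b5 : (8 : ℝ) ^ t * D.choose (3 * t) ≤ D.choose (2 * (3 * t)) := by
    have := ch_pow (D := D) (i := 3 * t) (3 * t) (by omega)
    rw [pow_mul, ← two_mul] at this
    exact_mod_cast this
  have b6 : (D.choose (2 * (3 * t)) : ℝ) ≤ 3 * l.choose (2 * (3 * t)) := by
    refine (ch_up (by omega) _).trans (mul_le_mul_of_nonneg_right ?_ (by positivity))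
    refine (Real.exp_le_exp.2 ?_).trans Real.exp_one_lt_three.le
    have c1 : ((t / 8 : ℕ) : ℝ) ≤ t / 8 := Nat.cast_div_le
    have c2 : (t : ℝ) * t ≤ l := by exact_mod_cast h1
    push_cast
    rw [div_le_one (by nlinarith)]
    nlinarith
  have b7 : (6 * t : ℝ) * l.choose (2 * (3 * t)) ≤ l * (EE l (2 * (3 * t))).card := by
    obtain ⟨m, rfl⟩ : ∃ m, l = m + 1 := ⟨l - 1, by omega⟩
    obtain ⟨k, hk⟩ : ∃ k, 2 * (3 * t) = k + 1 := ⟨6 * t - 1, by omega⟩
    have := (Nat.add_one_mul_choose_eq m k).symm.trans_le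
      (Nat.mul_le_mul_left (m + 1) (card_EE m k))
    rw [← hk, mul_comm] at this
    rw [show (6 * t : ℝ) = ((2 * (3 * t) : ℕ) : ℝ) by push_cast; ring]
    exact_mod_cast this
  have b8 : (600 : ℝ) * (t + 1) ^ 6 ≤ 8 ^ t := by exact_mod_cast pow_big (by omega)
  have b9 : (1 : ℝ) ≤ D.choose (3 * t) := by exact_mod_cast Nat.choose_pos (by omega)
  have c1 : (l : ℝ) ≤ (t + 1) ^ 2 := by rw [sq]; exact_mod_cast h2.le
  have c2 : (D : ℝ) ≤ 2 * (t + 1) ^ 2 := le_trans (by exact_mod_cast (by omega : D ≤ 2 * l))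
    (mul_le_mul_of_nonneg_left c1 zero_le_two)
  have c3 : (1 : ℝ) ≤ D := by exact_mod_cast (by omega : 1 ≤ D)
  have l0 : (0 : ℝ) < l := by exact_mod_cast (by omega : 0 < l)
  rw [sum_add_distrib]
  generalize (D.choose (3 * t) : ℝ) = x at *
  generalize (D.choose (2 * (3 * t)) : ℝ) = y at *
  generalize (l.choose (2 * (3 * t)) : ℝ) = z at *
  generalize ((EE l (2 * (3 * t))).card : ℝ) = u at *
  have d1 : (TT D (2 * (3 * t)) : ℝ) / (3 * t : ℕ) ≤ 2 * z / t := by
    rw [div_le_div_iff₀ (by positivity) (by positivity)]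
    push_cast
    nlinarith
  have d2 : (D : ℝ) + TT D (3 * t) + D * (D * TT D (3 * t)) ≤ 5 * D ^ 2 * x := by
    have e1 : (D : ℝ) ≤ D ^ 2 := by nlinarith
    have e2 := mul_le_mul_of_nonneg_left b4 (sq_nonneg (D : ℝ))
    nlinarith
  have d3 : 5 * (D : ℝ) ^ 2 * x * (t + 1) ^ 2 ≤ z / 10 := by
    have e1 : (D : ℝ) ^ 2 ≤ (2 * (t + 1) ^ 2) ^ 2 := pow_le_pow_left₀ (by positivity) c2 2
    have e2 := mul_le_mul_of_nonneg_right e1 (show 0 ≤ x * ((t : ℝ) + 1) ^ 2 by positivity)
    have e3 := mul_le_mul_of_nonneg_right b8 (show 0 ≤ x by positivity)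
    nlinarith
  have z0 : 0 ≤ z := le_trans (by positivity) (d3.trans (by nlinarith [d3, sq_nonneg ((D : ℝ) * (t + 1))]))
  have d4 : 2 * z / t * (t + 1) ^ 2 ≤ 5 / 2 * t * z := by
    rw [div_mul_eq_mul_div, div_le_iff₀ (by positivity)]
    nlinarith [mul_nonneg z0 (show 0 ≤ (t : ℝ) * t / 2 - 4 * t - 2 by nlinarith)]
  refine le_of_mul_le_mul_left (le_trans ?_ b7) l0
  have d5 : 0 ≤ 2 * z / t + 5 * (D : ℝ) ^ 2 * x := by positivity
  have d6 := mul_le_mul_of_nonneg_right c1 d5
  nlinarith [mul_le_mul_of_nonneg_left (add_le_add b1 b2) l0.le,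
    mul_le_mul_of_nonneg_left (add_le_add d1 d2) l0.le]

end Pool.Agent.MP_34d6af_nt.FF

end
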