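import Pool.Agent.MP_34d6af_nt.ff.Select

/-! The logarithmic derivative of an Euler product over the polynomial ring, as a sum over the
finite fields. -/

set_option autoImplicit false
set_option linter.unusedSectionVars false

noncomputable section

namespace Pool.Agent.MP_34d6af_nt.FF

open Finset Classical Polynomial

theorem monic2 {f : F2[X]} (h : f ≠ 0) : f.Monic :=
  (f2_cases f.leadingCoeff).resolve_left (leadingCoeff_ne_zero.2 h)

section Norm

variable {K : Type} [Field K] [Fintype K] [Algebra F2 K]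

theorem exists_nm (α : K) : ∃ N : F2[X], N.map (algebraMap F2 K) = ∏ σ : Gal(K/F2), (X - C (σ α)) ∧
    N.natDegree = Module.finrank F2 K ∧ N.Monic := by
  have : Algebra.IsInvariant F2 K Gal(K/F2) :=
    ⟨fun b h => (IsGalois.mem_range_algebraMap_iff_fixed b).2 h⟩
  obtain ⟨N, h1, h2, h3⟩ := lifts_and_natDegree_eq_and_monic
    (Algebra.IsInvariant.charpoly_mem_lifts F2 K Gal(K/F2) α)
    (MulSemiringAction.monic_charpoly _ α)
  refine ⟨N, h1, ?_, h3⟩
  rw [h2, MulSemiringAction.charpoly_eq, natDegree_prod_of_monic _ _ fun _ _ => monic_X_sub_C _]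
  simp [← IsGalois.card_aut_eq_finrank]

/-- the characteristic polynomial of an element -/
def nm (α : K) : F2[X] := (exists_nm α).choose

theorem nm_map (α : K) : (nm α).map (algebraMap F2 K) = ∏ σ : Gal(K/F2), (X - C (σ α)) :=
  (exists_nm α).choose_spec.1

theorem nm_deg (α : K) : (nm α).natDegree = Module.finrank F2 K := (exists_nm α).choose_spec.2.1

theorem nm_monic (α : K) : (nm α).Monic := (exists_nm α).choose_spec.2.2

theorem min_irr (α : K) : Irreducible (minpoly F2 α) := minpoly.irreducible (.of_finite F2 α)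

theorem nm_pow (α : K) :
    ∃ v, nm α = minpoly F2 α ^ v ∧ v * (minpoly F2 α).natDegree = Module.finrank F2 K := by
  obtain ⟨v, g, h1, h2⟩ := WfDvdMonoid.max_power_factor (nm_monic α).ne_zero (min_irr α)
  have g0 : g ≠ 0 := fun e => h1 (e ▸ dvd_zero _)
  have h3 : g.map (algebraMap F2 K) ∣ ∏ σ : Gal(K/F2), (X - C (σ α)) :=
    nm_map α ▸ Polynomial.map_dvd _ (h2 ▸ dvd_mul_left _ _)
  have h4 : g = 1 := by
    by_contra c
    obtain ⟨r, hr⟩ := ((Splits.prod fun σ _ => .X_sub_C _).of_dvd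
      (monic_prod_of_monic _ _ fun _ _ => monic_X_sub_C _).ne_zero h3).exists_eval_eq_zero
      (by rw [degree_map]; exact fun e => c ((monic2 g0).degree_le_zero_iff_eq_one.1 e.le))
    have h5 := eval_eq_zero_of_dvd_of_eval_eq_zero h3 hr
    rw [eval_prod, prod_eq_zero_iff] at h5
    obtain ⟨σ, -, h6⟩ := h5
    rw [eval_sub, eval_X, eval_C, sub_eq_zero] at h6
    rw [h6, eval_map_algebraMap, aeval_algHom_apply, map_eq_zero] at hr
    exact h1 (minpoly.dvd F2 α hr)
  rw [h4, mul_one] at h2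
  exact ⟨v, h2, by rw [← nm_deg α, h2, natDegree_pow]⟩

theorem card_min {d : ℕ} (hd : Nat.card K = 2 ^ d) {P : F2[X]} (hP : Irreducible P)
    (h : P.natDegree ∣ d) (h0 : d ≠ 0) :
    (univ.filter fun α : K => minpoly F2 α = P).card = P.natDegree := by
  have h1 := hP.natDegree_dvd_iff_dvd_X_pow_card_pow_sub_X.1 h
  rw [Nat.card_zmod] at h1
  have h2 := FiniteField.splits_X_pow_nat_card_sub_X (p := 2) (K := K)
  rw [hd] at h2
  have h3 : (X ^ 2 ^ d - X : F2[X]) ≠ 0 :=
    FiniteField.X_pow_card_pow_sub_X_ne_zero _ h0 one_lt_two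
  have h4 : (P.map (algebraMap F2 K)).Splits :=
    h2.of_dvd (Polynomial.map_ne_zero h3) (Polynomial.map_dvd _ h1)
  have h5 : (univ.filter fun α : K => minpoly F2 α = P) = (P.aroots K).toFinset := by
    ext α
    rw [mem_filter, Multiset.mem_toFinset, mem_aroots]
    exact ⟨fun e => ⟨hP.ne_zero, e.2 ▸ minpoly.aeval F2 α⟩, fun e => ⟨mem_univ _,
      (minpoly.eq_of_irreducible_of_monic hP e.2 (monic2 hP.ne_zero)).symm⟩⟩
  rw [h5, Multiset.toFinset_card_of_nodup
    (nodup_roots (PerfectField.separable_of_irreducible hP).map), ← h4.natDegree_eq_card_roots,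
    natDegree_map]

end Norm

theorem dvd_step {P Q g : F2[X]} (hP : Prime P) (hQ : Irreducible Q) (hg : ¬ P ∣ g) (v j : ℕ) :
    (if Q ^ j ∣ P * (P ^ v * g) then 1 else 0 : ℕ) =
      (if Q ^ j ∣ P ^ v * g then 1 else 0) + if Q = P ∧ j = v + 1 then 1 else 0 := by
  by_cases c : Q = P
  · subst c
    have k : ∀ m, Q ^ j ∣ Q ^ m * g ↔ j ≤ m := fun m =>
      ⟨fun h => (pow_dvd_pow_iff hP.ne_zero hP.not_isUnit).1
        (hP.pow_dvd_of_dvd_mul_right j hg h), fun h => (pow_dvd_pow Q h).mul_right g⟩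
    simp only [← mul_assoc, ← pow_succ', k, true_and]
    split_ifs <;> omega
  · have h : ¬ Q ∣ P := fun h => c (eq_of_monic_of_associated (monic2 hQ.ne_zero)
      (monic2 hP.ne_zero) (hQ.associated_of_dvd hP.irreducible h))
    simp only [c, false_and, if_false, add_zero]
    exact if_congr ⟨hQ.prime.pow_dvd_of_dvd_mul_left j h, fun h => h.mul_left P⟩ rfl rfl

theorem cnt (B : ℕ) (f : F2[X]) : f ≠ 0 → f.natDegree ≤ B →
    ∑ k ∈ range B, ∑ α : KK k, (if nm α ∣ f then 1 else 0 : ℕ) = f.natDegree := by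
  induction f using UniqueFactorizationMonoid.induction_on_prime with
  | h₁ => exact fun h => absurd rfl h
  | h₂ u hu =>
    intro h _
    rw [natDegree_eq_zero_of_isUnit hu]
    refine sum_eq_zero fun k _ => sum_eq_zero fun α _ => if_neg fun q => ?_
    have := natDegree_le_of_dvd q h
    rw [nm_deg, rk_KK, natDegree_eq_zero_of_isUnit hu] at this
    omega
  | h₃ f P hf hP ih =>
    intro _ hB
    rw [natDegree_mul hP.ne_zero hf] at hB ⊢
    rw [← ih hf (by omega)]
    obtain ⟨v, g, h1, rfl⟩ := WfDvdMonoid.max_power_factor hf hP.irreducible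
    have e0 := hP.irreducible.natDegree_pos
    rw [natDegree_mul (left_ne_zero_of_mul hf) (right_ne_zero_of_mul hf), natDegree_pow] at hB
    have h2 : ∀ (k : ℕ) (α : KK k), (if nm α ∣ P * (P ^ v * g) then 1 else 0 : ℕ) =
        (if nm α ∣ P ^ v * g then 1 else 0) +
          if k + 1 = (v + 1) * P.natDegree ∧ minpoly F2 α = P then 1 else 0 := fun k α => by
      obtain ⟨j, h3, h4⟩ := nm_pow α
      rw [h3, dvd_step hP (min_irr α) h1]
      rw [rk_KK] at h4
      congr 1
      refine if_congr ⟨fun h => ⟨h4.symm.trans (by rw [h.1, h.2]), h.1⟩, fun h => ⟨h.2, ?_⟩⟩ rfl rfl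
      rw [h.2] at h4
      exact Nat.eq_of_mul_eq_mul_right e0 (h4.trans h.1)
    simp only [h2, sum_add_distrib]
    rw [add_comm]
    congr 1
    obtain ⟨k, hk⟩ : ∃ k, k + 1 = (v + 1) * P.natDegree :=
      ⟨(v + 1) * P.natDegree - 1, Nat.sub_add_cancel (Nat.mul_pos v.succ_pos e0)⟩
    rw [sum_eq_single_of_mem k (mem_range.2 (by rw [add_mul] at hk; omega)) fun k' _ q =>
      sum_eq_zero fun α _ => if_neg fun h => q (by omega)]
    simp only [hk, true_and]
    rw [← card_filter]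
    exact card_min (GaloisField.card 2 _ k.succ_ne_zero) hP.irreducible
      ⟨v + 1, hk.trans (mul_comm _ _)⟩ k.succ_ne_zero

theorem fin_monic (d : ℕ) : {f : F2[X] | f.Monic ∧ f.natDegree = d}.Finite := by
  refine Set.Finite.of_injOn (f := fun f (i : Fin (d + 1)) => f.coeff i) (Set.mapsTo_univ _ _)
    (fun f hf g hg q => Polynomial.ext fun i => ?_) Set.finite_univ
  rcases lt_or_ge d i with h | h
  · rw [coeff_eq_zero_of_natDegree_lt (hf.2 ▸ h), coeff_eq_zero_of_natDegree_lt (hg.2 ▸ h)]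
  · exact congrFun q ⟨i, by omega⟩

/-- monic polynomials of degree `d` -/
def MM (d : ℕ) : Finset F2[X] := (fin_monic d).toFinset

theorem mem_MM {d : ℕ} {f : F2[X]} : f ∈ MM d ↔ f.Monic ∧ f.natDegree = d := by simp [MM]

theorem euler (χ : F2[X] → ℝ) (hχ : ∀ f g, χ (f * g) = χ f * χ g) (n : ℕ) :
    n * ∑ f ∈ MM n, χ f =
      ∑ k ∈ range n, (∑ α : KK k, χ (nm α)) * ∑ f ∈ MM (n - 1 - k), χ f := by
  have h : ∀ k ∈ range n, (∑ α : KK k, χ (nm α)) * ∑ f ∈ MM (n - 1 - k), χ f =
      ∑ f ∈ MM n, χ f * ∑ α : KK k, ((if nm α ∣ f then 1 else 0 : ℕ) : ℝ) := fun k hk => by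
    have hk' := mem_range.1 hk
    simp only [mul_sum, sum_mul]
    rw [sum_comm, sum_comm (s := MM n)]
    refine sum_congr rfl fun α _ => ?_
    simp only [Nat.cast_ite, Nat.cast_one, Nat.cast_zero, mul_ite, mul_one, mul_zero, ← sum_filter]
    refine sum_bij (fun g _ => nm α * g) (fun g hg => ?_) (fun g _ g' _ q => ?_) (fun f hf => ?_)
      fun g _ => (hχ _ _).symm
    · obtain ⟨h1, h2⟩ := mem_MM.1 hg
      refine mem_filter.2 ⟨mem_MM.2 ⟨(nm_monic α).mul h1, ?_⟩, dvd_mul_right _ _⟩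
      rw [(nm_monic α).natDegree_mul h1, nm_deg, rk_KK]
      omega
    · exact mul_left_cancel₀ (nm_monic α).ne_zero q
    · obtain ⟨h1, g, rfl⟩ := mem_filter.1 hf
      obtain ⟨h2, h3⟩ := mem_MM.1 h1
      have h4 := (nm_monic α).of_mul_monic_left h2
      rw [(nm_monic α).natDegree_mul h4, nm_deg, rk_KK] at h3
      exact ⟨g, mem_MM.2 ⟨h4, by omega⟩, rfl⟩
  rw [sum_congr rfl h, sum_comm, mul_sum]
  refine sum_congr rfl fun f hf => ?_
  obtain ⟨h1, h2⟩ := mem_MM.1 hf
  rw [← mul_sum, mul_comm]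
  congr 1
  exact_mod_cast ((cnt n f h1.ne_zero h2.le).trans h2).symm

end Pool.Agent.MP_34d6af_nt.FF

end
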