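import Pool.Agent.MP_34d6af_nt.ff.Count

/-! A phase with a large sum of biases over all finite fields of characteristic two. -/

set_option autoImplicit false
set_option linter.unusedSectionVars false

noncomputable section

namespace Pool.Agent.MP_34d6af_nt.FF

open Finset Classical

/-- the field with `2 ^ (d + 1)` elements -/
abbrev KK (d : ℕ) : Type := GaloisField 2 (d + 1)

instance (d : ℕ) : Fintype (KK d) := Fintype.ofFinite _

theorem rk_KK (d : ℕ) : Module.finrank F2 (KK d) = d + 1 := GaloisField.finrank 2 d.succ_ne_zero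

theorem card_KK (d : ℕ) : Fintype.card (KK d) = 2 ^ (d + 1) := by
  rw [Fintype.card_eq_nat_card, GaloisField.card 2 _ d.succ_ne_zero]

/-- the phase with coefficients `c` -/
def ph {K : Type} [Field K] [Fintype K] [Algebra F2 K] (T : Finset (Finset ℕ))
    (c : Finset ℕ → F2) (x : K) : K := ∑ E ∈ T, algebraMap F2 K (c E) * mo E x

theorem tr_ph {K : Type} [Field K] [Fintype K] [Algebra F2 K] (T : Finset (Finset ℕ))
    (c : Finset ℕ → F2) (x : K) : tr (ph T c x) = ∑ E ∈ T, c E * tr (mo E x) := by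
  simp only [ph, map_sum, ← Algebra.smul_def, map_smul, smul_eq_mul]

def bb (T : Finset (Finset ℕ)) (c : Finset ℕ → F2) (d : ℕ) : ℝ := bias (K := KK d) (ph T c)

theorem pick (T : Finset (Finset ℕ)) (D D' : ℕ) (h2 : 2 ≤ D) (hD : D ≤ D') (h : ∑ d ∈ range D,
      (T.image fun E => fun x : KK d => tr (mo E x)).card + D' ≤ T.card) :
    ∃ c : Finset ℕ → F2, (∃ E ∈ T, c E ≠ 0) ∧ (D : ℝ) - 1 ≤ ∑ d ∈ range D', bb T c d := by
  let I : Finset (Σ d : ℕ, KK d → F2) :=
    (range D).sigma fun d => T.image fun E => fun x : KK d => tr (mo E x)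
  let Φ : (T → F2) →ₗ[F2] (I → F2) := LinearMap.pi fun i =>
    ∑ E : T with (fun x : KK i.1.1 => tr (mo E.1 x)) = i.1.2, LinearMap.proj E
  let ex : (T → F2) → Finset ℕ → F2 := fun c E => if h : E ∈ T then c ⟨E, h⟩ else 0
  have e1 : ∀ (c : T → F2) (d : ℕ) (x : KK d),
      tr (ph T (ex c) x) = ∑ E : T, c E * tr (mo E.1 x) := fun c d x => by
    rw [tr_ph, ← sum_coe_sort]
    simp [ex]
  have e2 : ∀ c : LinearMap.ker Φ, ∀ d ∈ range D, bb T (ex c) d = 1 := fun c d hd => by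
    have : ∀ x : KK d, tr (ph T (ex c) x) = 0 := fun x => by
      rw [e1, ← sum_fiberwise_of_maps_to (g := fun E : T => fun x : KK d => tr (mo E.1 x))
        (t := T.image fun E => fun x : KK d => tr (mo E x)) fun E _ => mem_image_of_mem _ E.2]
      refine sum_eq_zero fun f hf => ?_
      have k := congrFun c.2 ⟨⟨d, f⟩, mem_sigma.2 ⟨hd, hf⟩⟩
      simp only [Φ, LinearMap.pi_apply, LinearMap.sum_apply, LinearMap.proj_apply,
        Pi.zero_apply] at k
      rw [sum_congr rfl fun E hE => by rw [congrFun (mem_filter.1 hE).2 x], ← sum_mul, k, zero_mul]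
    simp [bb, bias, this, sg_zero]
  have e3 : ∀ d, 0 ≤ ∑ c : LinearMap.ker Φ, bb T (ex c) d := fun d => by
    simp only [bb, bias, ← sum_div]
    rw [sum_comm]
    refine div_nonneg (sum_nonneg fun x _ => sum_sg_nonneg _ fun a b => ?_) card_pos'.le
    simp [e1, add_mul, sum_add_distrib]
  have e4 : D' ≤ Fintype.card (LinearMap.ker Φ) := by
    have k1 := Φ.finrank_range_add_finrank_ker
    have k2 := (LinearMap.range Φ).finrank_le
    rw [Module.finrank_fintype_fun_eq_card, Fintype.card_coe] at k1 k2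
    rw [card_sigma] at k2
    rw [Module.card_eq_pow_finrank (K := F2), ZMod.card]
    exact le_trans (by omega) Nat.lt_two_pow_self.le
  by_contra hc
  push Not at hc
  have e5 : ∀ c ∈ (univ : Finset (LinearMap.ker Φ)).erase 0,
      ∑ d ∈ range D', bb T (ex c) d ≤ D - 1 := fun c h0 => by
    refine (hc _ ?_).le
    by_contra q
    push Not at q
    exact ne_of_mem_erase h0 (Subtype.ext (funext fun E => by simpa [ex] using q E E.2))
  have e6 : ∑ d ∈ range D', bb T (ex (0 : LinearMap.ker Φ)) d = D' := by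
    simp [bb, bias, e1, sg_zero]
  have e7 : (Fintype.card (LinearMap.ker Φ) * D : ℝ) ≤
      ∑ c : LinearMap.ker Φ, ∑ d ∈ range D', bb T (ex c) d := by
    rw [sum_comm]
    refine le_trans (le_of_eq ?_) (sum_le_sum_of_subset_of_nonneg (range_mono hD) fun d _ _ => e3 d)
    rw [sum_comm, sum_congr rfl fun c _ => sum_congr rfl (e2 c)]
    simp
  have e8 := sum_le_card_nsmul _ _ _ e5
  rw [← add_sum_erase _ _ (mem_univ 0), e6] at e7
  rw [card_erase_of_mem (mem_univ _), card_univ, nsmul_eq_mul,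
    Nat.cast_sub Fintype.card_pos] at e8
  have e9 : (D' : ℝ) ≤ Fintype.card (LinearMap.ker Φ) := by exact_mod_cast e4
  have : (2 : ℝ) ≤ D := by exact_mod_cast h2
  push_cast at e8
  nlinarith

theorem tail {l k : ℕ} {c : Finset ℕ → F2} (hc : ∃ E ∈ EE l (k + 1), c E ≠ 0) (d : ℕ) :
    |bb (EE l (k + 1)) c (d + 2 * l)| ≤ 2 * (1 - 1 / (2 * 2 ^ k)) ^ d := by
  have p0 : (0 : ℝ) < 2 ^ k := by positivity
  have p1 : (1 : ℝ) ≤ 2 ^ k := one_le_pow₀ one_le_two
  have p2 : (1 : ℝ) / (2 * 2 ^ k) ≤ 1 := by rw [div_le_one (by positivity)]; linarith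
  have p3 : (0 : ℝ) ≤ 1 / (2 * 2 ^ k) := by positivity
  have := weyl (card_KK (d + 2 * l)) (L := l) (by omega) k (fun E => algebraMap F2 _ (c E))
    (hc.imp fun E h => ⟨h.1, (map_ne_zero _).2 h.2⟩) 0 (zero_mem _) ((1 - 1 / (2 * 2 ^ k)) ^ d)
    (pow_nonneg (sub_nonneg.2 p2) _) (pow_le_one₀ (sub_nonneg.2 p2) (by linarith)) (by
      have h1 := one_add_mul_le_pow (a := -(1 / (2 * 2 ^ k) : ℝ)) (by linarith) (2 ^ k)
      rw [show (1 : ℝ) + (2 ^ k : ℕ) * -(1 / (2 * 2 ^ k)) = 1 / 2 by push_cast; field_simp; ring,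
        ← sub_eq_add_neg] at h1
      have h2 := pow_le_pow_left₀ (by norm_num) h1 d
      rw [card_KK, ← pow_mul, mul_comm d, pow_mul _ (2 ^ k)]
      push_cast
      refine le_trans ?_ (mul_le_mul_of_nonneg_right h2 (by positivity))
      rw [pow_succ, pow_add, ← mul_assoc, ← mul_assoc, ← mul_pow]
      norm_num)
  simp only [Pi.zero_apply, add_zero] at this
  exact this

theorem select {l t : ℕ} (ht : 100 ≤ t) (h1 : t * t ≤ l) (h2 : l < (t + 1) * (t + 1)) :
    ∃ (T : Finset (Finset ℕ)) (c : Finset ℕ → F2), (∀ E ∈ T, E ⊆ range l ∧ E.Nonempty) ∧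
      Summable (fun d => |bb T c d|) ∧ ((l + t / 8 : ℕ) : ℝ) - 2 ≤ ∑' d, bb T c d := by
  obtain ⟨j, hj⟩ : ∃ j, 2 * (3 * t) = j + 1 + 1 := ⟨6 * t - 2, by omega⟩
  have a1 : 100 * t ≤ l := (Nat.mul_le_mul_right t ht).trans h1
  have b := budget ht h1 h2
  have b1 : 2 * (2 * 2 ^ (j + 1) * (j + 3) + 2 * l) ≤ (EE l (2 * (3 * t))).card := by
    obtain ⟨m, rfl⟩ : ∃ m, l = m + 1 := ⟨l - 1, by omega⟩
    have k1 := ch_pow (D := m) (i := 1) j (by omega)
    rw [Nat.choose_one_right, add_comm 1] at k1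
    refine le_trans ?_ (k1.trans (hj ▸ card_EE m (j + 1)))
    have k2 : 2 ^ 4 ≤ 2 ^ j := Nat.pow_le_pow_right two_pos (by omega)
    obtain ⟨r, rfl⟩ : ∃ r, m = 8 * (j + 3) + r := ⟨m - 8 * (j + 3), by omega⟩
    have k3 := Nat.mul_le_mul_right r k2
    rw [pow_succ]
    nlinarith
  obtain ⟨c, c1, c2⟩ := pick (EE l (2 * (3 * t))) (l + t / 8) (2 * 2 ^ (j + 1) * (j + 3) + 2 * l)
    (by omega) (by omega) (by
      have k := sum_le_sum fun d (_ : d ∈ range (l + t / 8)) => card_fun (rk_KK d) l (3 * t)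
      have k2 := (mul_le_mul_of_nonneg_left k zero_le_two).trans b
      have k3 : 2 * ∑ d ∈ range (l + t / 8), ((EE l (2 * (3 * t))).image
          fun E => fun x : KK d => tr (mo E x)).card ≤ (EE l (2 * (3 * t))).card := by
        exact_mod_cast k2
      refine Nat.le_of_mul_le_mul_left ?_ two_pos
      rw [mul_add, two_mul (EE l _).card]
      convert add_le_add k3 b1)
  rw [hj] at c1 c2
  set ρ : ℝ := 1 - 1 / (2 * 2 ^ (j + 1)) with hρ
  have p1 : (1 : ℝ) ≤ 2 ^ (j + 1) := one_le_pow₀ one_le_two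
  have r0 : 0 ≤ ρ := sub_nonneg.2 (by rw [div_le_one (by positivity)]; linarith)
  have r1 : ρ < 1 := sub_lt_self _ (by positivity)
  have g := (hasSum_geometric_of_lt_one r0 r1).mul_left 2
  have s1 : Summable fun d => |bb (EE l (j + 1 + 1)) c d| := (summable_nat_add_iff (2 * l)).1
    (Summable.of_nonneg_of_le (fun _ => abs_nonneg _) (tail c1) g.summable)
  refine ⟨_, c, fun E hE => ⟨(mem_EE.1 hE).1.1, _, (mem_EE.1 hE).2⟩, s1, ?_⟩
  set m := 2 * 2 ^ (j + 1) * (j + 3) with hm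
  rw [← s1.of_abs.sum_add_tsum_nat_add (m + 2 * l)]
  have s2 := hasSum_le (fun d => (abs_le.1 ((tail c1 (d + m)).trans_eq
    (show 2 * ρ ^ (d + m) = 2 * ρ ^ d * ρ ^ m by ring))).1) (g.mul_right (ρ ^ m)).neg
    (by simpa only [add_assoc] using
      ((summable_nat_add_iff (m + 2 * l)).2 s1.of_abs).hasSum)
  have s3 : ρ ^ m ≤ 1 / 2 ^ (j + 3) := by
    refine (pow_le_pow_left₀ r0 (Real.one_sub_le_exp_neg _) m).trans ?_
    rw [← Real.exp_nat_mul, hm, show ((2 * 2 ^ (j + 1) * (j + 3) : ℕ) : ℝ) *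
      -(1 / (2 * 2 ^ (j + 1))) = (j + 3 : ℕ) * -1 by push_cast; field_simp, Real.exp_nat_mul,
      ← one_div_pow]
    exact pow_le_pow_left₀ (Real.exp_pos _).le Real.exp_neg_one_lt_half.le _
  have s4 : 2 * (1 - ρ)⁻¹ * ρ ^ m ≤ 1 := by
    refine (mul_le_mul_of_nonneg_left s3 (by have := sub_pos.2 r1; positivity)).trans_eq ?_
    rw [hρ, sub_sub_cancel]
    field_simp
    ring
  linarith

end Pool.Agent.MP_34d6af_nt.FF

end
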