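import Mathlib

/-! Weyl differencing for sums of monomials of bounded binary weight over fields of
characteristic two. -/

set_option autoImplicit false
set_option linter.unusedSectionVars false

noncomputable section

namespace Pool.Agent.MP_34d6af_nt.FF

open Finset Classical

abbrev F2 : Type := ZMod 2

/-- the sign character -/
def sg (z : F2) : ℝ := if z = 0 then 1 else -1

theorem sg_zero : sg 0 = 1 := if_pos rfl

theorem f2_cases (z : F2) : z = 0 ∨ z = 1 := by revert z; decide

theorem sg_add (a b : F2) : sg (a + b) = sg a * sg b := by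
  have h : (1 : F2) + 1 = 0 := by decide
  rcases f2_cases a with rfl | rfl <;> rcases f2_cases b with rfl | rfl <;> simp [sg, h]

theorem abs_sg (a : F2) : |sg a| = 1 := by unfold sg; split_ifs <;> simp

theorem sg_ne {a : F2} (h : a ≠ 0) : sg a = -1 := if_neg h

theorem sum_sg_zero {A : Type} [AddCommGroup A] [Fintype A] (l : A → F2)
    (h : ∀ a b, l (a + b) = l a + l b) {a : A} (ha : l a ≠ 0) : ∑ x, sg (l x) = 0 := by
  have := Equiv.sum_comp (Equiv.addLeft a) fun x => sg (l x)
  simp only [Equiv.coe_addLeft, h, sg_add, sg_ne ha, neg_mul, one_mul, sum_neg_distrib] at this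
  linarith

theorem sum_sg_nonneg {A : Type} [AddCommGroup A] [Fintype A] (l : A → F2)
    (h : ∀ a b, l (a + b) = l a + l b) : 0 ≤ ∑ x, sg (l x) := by
  by_cases c : ∀ a, l a = 0
  · exact sum_nonneg fun x _ => by rw [c, sg_zero]; exact zero_le_one
  · push Not at c
    exact (sum_sg_zero l h c.choose_spec).ge

variable {K : Type} [Field K] [Fintype K] [Algebra F2 K]

abbrev tr : K →ₗ[F2] F2 := Algebra.trace F2 K

theorem char2 (K : Type) [Field K] [Algebra F2 K] : CharP K 2 :=
  charP_of_injective_algebraMap (algebraMap F2 K).injective 2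

theorem tr_sq (x : K) : tr (x ^ 2) = tr x := by
  have := Algebra.trace_eq_of_algEquiv (FiniteField.frobeniusAlgEquivOfAlgebraic F2 K) x
  rwa [FiniteField.coe_frobeniusAlgEquivOfAlgebraic, ZMod.card] at this

theorem tr_pow (t : ℕ) (x : K) : tr (x ^ 2 ^ t) = tr x := by
  induction t with
  | zero => simp
  | succ t ih => rw [pow_succ, pow_mul, tr_sq, ih]

/-- the bias of a phase -/
def bias (φ : K → K) : ℝ := (∑ x, sg (tr (φ x))) / Fintype.card K

theorem card_pos' : (0 : ℝ) < Fintype.card K := by exact_mod_cast Fintype.card_pos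

theorem abs_bias (φ : K → K) : |bias φ| ≤ 1 := by
  rw [bias, abs_div, abs_of_pos (card_pos' (K := K)), div_le_one card_pos']
  exact (abs_sum_le_sum_abs _ _).trans (by simp [abs_sg])

theorem bias_sq (φ : K → K) :
    bias φ ^ 2 = (∑ h, bias fun x => φ (x + h) + φ x) / Fintype.card K := by
  simp only [bias, map_add, sg_add, ← sum_div]
  rw [sum_comm, div_pow, div_div, sq, sq, sum_mul]
  congr 1
  refine sum_congr rfl fun x _ => ?_
  rw [← sum_mul, mul_comm]
  congr 1
  exact (Equiv.sum_comp (Equiv.addLeft x) fun y => sg (tr (φ y))).symm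

/-- the monomial with binary digits `E` -/
def mo (E : Finset ℕ) (x : K) : K := ∏ e ∈ E, x ^ 2 ^ e

/-- phases of weight at most `k` -/
def PW (K : Type) [Field K] [Fintype K] [Algebra F2 K] (k : ℕ) : Submodule K (K → K) :=
  Submodule.span K {f | ∃ S : Finset ℕ, S.card ≤ k ∧ f = mo S}

theorem mo_add (E : Finset ℕ) (x h : K) :
    mo E (x + h) = ∑ S ∈ E.powerset, mo (E \ S) h * mo S x := by
  have := char2 K
  simp only [mo, add_pow_char_pow, prod_add, mul_comm]

theorem sum_mem_PW {k : ℕ} (T : Finset (Finset ℕ)) (b : Finset ℕ → K) (hT : ∀ S ∈ T, S.card ≤ k) :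
    (fun x => ∑ S ∈ T, b S * mo S x) ∈ PW K k := by
  have : (fun x => ∑ S ∈ T, b S * mo S x) = ∑ S ∈ T, b S • (mo S : K → K) := by
    ext x; simp
  rw [this]
  exact Submodule.sum_mem _ fun S hS => Submodule.smul_mem _ _
    (Submodule.subset_span ⟨S, hT S hS, rfl⟩)

theorem diff_mo (E : Finset ℕ) (x h : K) :
    mo E (x + h) + mo E x = ∑ S ∈ E.powerset.erase E, mo (E \ S) h * mo S x := by
  have := char2 K
  rw [mo_add, ← add_sum_erase _ _ (mem_powerset_self E), sdiff_self, add_right_comm]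
  simp [mo, CharTwo.add_self_eq_zero]

theorem diff_PW {k : ℕ} {ρ : K → K} (hρ : ρ ∈ PW K (k + 1)) (h : K) :
    (fun x => ρ (x + h) + ρ x) ∈ PW K k := by
  induction hρ using Submodule.span_induction with
  | mem f hf =>
    obtain ⟨E, hE, rfl⟩ := hf
    simp only [diff_mo]
    refine sum_mem_PW _ _ fun S hS => ?_
    have := card_lt_card (Finset.ssubset_iff_subset_ne.2
      ⟨mem_powerset.1 (mem_of_mem_erase hS), ne_of_mem_erase hS⟩)
    omega
  | zero => convert (PW K k).zero_mem using 1; ext x; simp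
  | add f g _ _ hf hg => convert (PW K k).add_mem hf hg using 1; ext x; simp; ring
  | smul c f _ hf => convert (PW K k).smul_mem c hf using 1; ext x; simp; ring

theorem diff_top {k : ℕ} {E : Finset ℕ} (hE : E.card = k + 2) (h : K) : ∃ ρ ∈ PW K k, ∀ x,
    mo E (x + h) + mo E x = ∑ e ∈ E, h ^ 2 ^ e * mo (E.erase e) x + ρ x := by
  refine ⟨_, sum_mem_PW ((E.powerset.erase E).filter fun S => ¬ S.card = k + 1)
    (fun S => mo (E \ S) h) fun S hS => ?_, fun x => ?_⟩
  · obtain ⟨h1, h2⟩ := mem_filter.1 hS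
    have := card_lt_card (Finset.ssubset_iff_subset_ne.2
      ⟨mem_powerset.1 (mem_of_mem_erase h1), ne_of_mem_erase h1⟩)
    omega
  · rw [diff_mo, ← sum_filter_add_sum_filter_not _ fun S => S.card = k + 1]
    congr 1
    refine (sum_bij (fun e _ => E.erase e) (fun e he => ?_) (fun e he e' he' q => ?_)
      (fun S hS => ?_) fun e he => ?_).symm
    · exact mem_filter.2 ⟨mem_erase.2 ⟨(erase_ssubset he).ne, mem_powerset.2 (erase_subset _ _)⟩,
        by rw [card_erase_of_mem he]; omega⟩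
    · exact erase_injOn E he he' q
    · obtain ⟨h1, h2⟩ := mem_filter.1 hS
      have h3 := mem_powerset.1 (mem_of_mem_erase h1)
      obtain ⟨e, he, q⟩ := (exists_eq_insert_iff.2 ⟨h3, by omega⟩ : ∃ e ∉ S, insert e S = E)
      exact ⟨e, q ▸ mem_insert_self _ _, by rw [← q, erase_insert he]⟩
    · rw [sdiff_erase he, sdiff_self]; simp [mo]

/-- normalised digit sets -/
def EE (L k : ℕ) : Finset (Finset ℕ) := (powersetCard k (range L)).filter fun E => 0 ∈ E

theorem mem_EE {L k : ℕ} {E : Finset ℕ} : E ∈ EE L k ↔ (E ⊆ range L ∧ E.card = k) ∧ 0 ∈ E := by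
  rw [EE, mem_filter, mem_powersetCard]

/-- the least element -/
def lo (F : Finset ℕ) : ℕ := sInf (F : Set ℕ)

/-- the shape of a digit set -/
def sh (F : Finset ℕ) : Finset ℕ := F.image (· - lo F)

theorem lo_le {F : Finset ℕ} {e : ℕ} (h : e ∈ F) : lo F ≤ e := Nat.sInf_le h

theorem lo_mem {F : Finset ℕ} (h : F.Nonempty) : lo F ∈ F := Nat.sInf_mem (s := (F : Set ℕ)) h

theorem sh_inj (F : Finset ℕ) : Set.InjOn (· - lo F) F := fun a ha b hb q => by
  have := lo_le ha
  have := lo_le hb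
  simp only at q
  omega

theorem sh_add (F : Finset ℕ) : (sh F).image (· + lo F) = F := by
  rw [sh, image_image]
  exact (image_congr fun e he => Nat.sub_add_cancel (lo_le he)).trans image_id

theorem sh_mem {L k : ℕ} {F : Finset ℕ} (h : F ⊆ range L) (hk : F.card = k + 1) :
    sh F ∈ EE L (k + 1) := by
  refine mem_EE.2 ⟨⟨fun e he => ?_, by rw [sh, card_image_of_injOn (sh_inj F), hk]⟩,
    mem_image.2 ⟨_, lo_mem (card_pos.1 (by omega)), Nat.sub_self _⟩⟩
  obtain ⟨a, ha, rfl⟩ := mem_image.1 he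
  exact mem_range.2 ((Nat.sub_le _ _).trans_lt (mem_range.1 (h ha)))

theorem mo_sh (F : Finset ℕ) (x : K) : mo F x = mo (sh F) x ^ 2 ^ lo F := by
  rw [mo, mo, sh, prod_image (sh_inj F), ← prod_pow]
  exact prod_congr rfl fun e he => by rw [← pow_mul, ← pow_add, Nat.sub_add_cancel (lo_le he)]

theorem weyl {L d : ℕ} (hd : Fintype.card K = 2 ^ d) (hL : L ≤ d) (k : ℕ) :
    ∀ (a : Finset ℕ → K), (∃ E ∈ EE L (k + 1), a E ≠ 0) → ∀ ρ ∈ PW K k, ∀ ε : ℝ, 0 ≤ ε → ε ≤ 1 →
    (2 : ℝ) ^ (2 * L) ≤ ε ^ 2 ^ k * Fintype.card K →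
    |bias fun x => ∑ E ∈ EE L (k + 1), a E * mo E x + ρ x| ≤ 2 * ε := by
  have := char2 K
  induction k with
  | zero =>
    rintro a ⟨E, hE, ha⟩ ρ hρ ε h0 - -
    have h1 : ∀ E ∈ EE L (0 + 1), E = {0} := fun E hE => by
      obtain ⟨⟨-, h1⟩, h2⟩ := mem_EE.1 hE
      obtain ⟨e, rfl⟩ := card_eq_one.1 h1
      rw [mem_singleton.1 h2]
    have h2 : ∀ x, ρ x = ρ 0 := by
      induction hρ using Submodule.span_induction with
      | mem f hf =>
        obtain ⟨S, hS, rfl⟩ := hf
        rw [card_eq_zero.1 (Nat.le_zero.1 hS)]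
        exact fun _ => rfl
      | zero => exact fun _ => rfl
      | add f g _ _ hf hg => exact fun x => by simp [hf x, hg x]
      | smul c f _ hf => exact fun x => by simp [hf x]
    have h3 : ∀ x : K, ∑ E ∈ EE L (0 + 1), a E * mo E x = a E * x := fun x => by
      rw [sum_eq_single E (fun E' h q => absurd ((h1 _ h).trans (h1 _ hE).symm) q)
        fun h => absurd hE h, h1 E hE]
      simp [mo]
    obtain ⟨b, hb⟩ : ∃ b, tr (a E * b) ≠ 0 := by
      by_contra c
      push Not at c
      exact ha ((traceForm_nondegenerate F2 K).1 _ c)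
    have h4 := sum_sg_zero (fun x => tr (a E * x)) (fun x y => by rw [mul_add, map_add]) hb
    have h5 : ∀ x, sg (tr (a E * x + ρ x)) = sg (tr (a E * x)) * sg (tr (ρ 0)) := fun x => by
      rw [map_add, sg_add, h2]
    simp only [bias, h3, h5, ← sum_mul, h4]
    simpa using h0
  | succ k ih =>
    rintro a ⟨E₀, hE₀, ha⟩ ρ hρ ε h0 h1 hε
    let P : Finset (Σ _ : Finset ℕ, ℕ) := (EE L (k + 1 + 1)).sigma fun E => E
    have hP : ∀ p ∈ P, p.1.erase p.2 ⊆ range L ∧ (p.1.erase p.2).card = k + 1 ∧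
        lo (p.1.erase p.2) < L ∧ p.2 < L ∧ (p.2 = 0 ∨ lo (p.1.erase p.2) = 0) := fun p hp => by
      obtain ⟨h2, h3⟩ := mem_sigma.1 hp
      obtain ⟨⟨h4, h5⟩, h6⟩ := mem_EE.1 h2
      have h7 : (p.1.erase p.2).card = k + 1 := by rw [card_erase_of_mem h3]; omega
      have h8 := (erase_subset p.2 _).trans h4
      refine ⟨h8, h7, mem_range.1 (h8 (lo_mem (card_pos.1 (by omega)))), mem_range.1 (h4 h3), ?_⟩
      by_cases c : p.2 = 0
      · exact Or.inl c
      · exact Or.inr (Nat.le_zero.1 (lo_le (mem_erase.2 ⟨Ne.symm c, h6⟩)))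
    let a' : K → Finset ℕ → K := fun h F => ∑ p ∈ P with sh (p.1.erase p.2) = F,
      (a p.1 * h ^ 2 ^ p.2) ^ 2 ^ (d - lo (p.1.erase p.2))
    have fro : ∀ y : K, y ^ 2 ^ d = y := fun y => by rw [← hd, FiniteField.pow_card]
    have key : ∀ h, (∃ F ∈ EE L (k + 1), a' h F ≠ 0) →
        |bias fun x => (∑ E ∈ EE L (k + 1 + 1), a E * mo E (x + h) + ρ (x + h)) +
          (∑ E ∈ EE L (k + 1 + 1), a E * mo E x + ρ x)| ≤ 2 * ε ^ 2 := fun h hh => by
      choose! r r1 r2 using fun E (hE : E ∈ EE L (k + 1 + 1)) => diff_top (mem_EE.1 hE).1.2 h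
      have m : (∑ E ∈ EE L (k + 1 + 1), a E • r E + fun x => ρ (x + h) + ρ x) ∈ PW K k :=
        add_mem (Submodule.sum_mem _ fun E hE => Submodule.smul_mem _ _ (r1 E hE)) (diff_PW hρ h)
      refine le_of_eq_of_le ?_ (ih (a' h) hh _ m (ε ^ 2) (sq_nonneg ε) (pow_le_one₀ h0 h1)
        (by rwa [← pow_mul, ← pow_succ']))
      simp only [bias]
      congr 3
      ext x
      congr 1
      have e1 : tr (∑ F ∈ EE L (k + 1), a' h F * mo F x) =
          tr (∑ p ∈ P, a p.1 * h ^ 2 ^ p.2 * mo (p.1.erase p.2) x) := by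
        rw [map_sum, map_sum, ← sum_fiberwise_of_maps_to (g := fun p => sh (p.1.erase p.2))
          fun p hp => sh_mem (hP p hp).1 (hP p hp).2.1]
        refine sum_congr rfl fun F _ => ?_
        rw [sum_mul, map_sum]
        refine sum_congr rfl fun p hp => ?_
        obtain ⟨h2, h3⟩ := mem_filter.1 hp
        rw [← tr_pow (lo (p.1.erase p.2)), mul_pow, ← pow_mul, ← pow_add,
          Nat.sub_add_cancel (by have := (hP p h2).2.2.1; omega), fro, ← h3, ← mo_sh]
      rw [map_add tr (∑ F ∈ EE L (k + 1), _), e1, ← map_add]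
      congr 1
      rw [add_add_add_comm, ← sum_add_distrib, sum_sigma, Pi.add_apply, Finset.sum_apply,
        ← add_assoc, ← add_assoc, ← sum_add_distrib, add_assoc]
      congr 1
      refine sum_congr rfl fun E hE => ?_
      rw [← mul_add, r2 E hE, mul_add, mul_sum]
      simp [mul_assoc]
    have p0 : (⟨E₀, 0⟩ : Σ _ : Finset ℕ, ℕ) ∈ P := mem_sigma.2 ⟨hE₀, (mem_EE.1 hE₀).2⟩
    let Q : Polynomial K := ∑ p ∈ P with sh (p.1.erase p.2) = sh (E₀.erase 0),
      Polynomial.monomial (2 ^ (p.2 + (L - lo (p.1.erase p.2))))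
        (a p.1 ^ 2 ^ (L - lo (p.1.erase p.2)))
    have q1 : ∀ h, Q.eval h = a' h (sh (E₀.erase 0)) ^ 2 ^ L := fun h => by
      rw [Polynomial.eval_finsetSum, sum_pow_char_pow]
      refine sum_congr rfl fun p hp => ?_
      have := (hP p (mem_filter.1 hp).1).2.2.1
      rw [← pow_mul, ← pow_add, show d - lo (p.1.erase p.2) + L = L - lo (p.1.erase p.2) + d by omega,
        pow_add 2 _ d, pow_mul, fro, Polynomial.eval_monomial, mul_pow, ← pow_mul, ← pow_add]
    have q2 : Q ≠ 0 := fun q => by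
      have := congrArg (Polynomial.coeff · (2 ^ (0 + (L - lo (E₀.erase 0))))) q
      simp only [Q, Polynomial.finsetSum_coeff, Polynomial.coeff_monomial,
        Polynomial.coeff_zero] at this
      rw [sum_eq_single_of_mem ⟨E₀, 0⟩ (by exact mem_filter.2 ⟨p0, rfl⟩), if_pos rfl] at this
      · exact ha (pow_eq_zero_iff (by positivity) |>.1 this)
      · rintro ⟨E, e⟩ hp hne
        refine if_neg fun q => hne ?_
        obtain ⟨h2, h3⟩ := mem_filter.1 hp
        have h4 := Nat.pow_right_injective le_rfl q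
        obtain ⟨-, -, h5, -, h6⟩ := hP _ h2
        obtain ⟨-, -, h7, -, -⟩ := hP _ p0
        simp only at h3 h4 h5 h6 h7
        have h8 : lo (E₀.erase 0) ≠ 0 := fun z => by
          have := lo_mem (F := E₀.erase 0) (card_pos.1 ((Nat.succ_pos k).trans_eq (hP _ p0).2.1.symm))
          simp [z] at this
        obtain rfl : e = 0 := by omega
        have h9 : E.erase 0 = E₀.erase 0 := by
          rw [← sh_add (E.erase 0), h3, show lo (E.erase 0) = lo (E₀.erase 0) by omega, sh_add]
        have h10 : 0 ∈ E := (mem_sigma.1 h2).2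
        rw [← insert_erase h10, h9, insert_erase (mem_EE.1 hE₀).2]
    have q3 : Q.natDegree ≤ 2 ^ (2 * L) := Polynomial.natDegree_sum_le_of_forall_le _ _ fun p hp => by
      have := (hP p (mem_filter.1 hp).1).2.2.2.1
      exact (Polynomial.natDegree_monomial_le _).trans (Nat.pow_le_pow_right two_pos (by omega))
    have q4 : ((univ.filter fun h => Q.eval h = 0).card : ℝ) ≤ 2 ^ (2 * L) := by
      have : (univ.filter fun h => Q.eval h = 0) = Q.roots.toFinset := by
        ext h; simp [q2]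
      rw [this]
      exact_mod_cast (Multiset.toFinset_card_le _).trans ((Polynomial.card_roots' Q).trans q3)
    refine abs_le.2 (abs_le_of_sq_le_sq' ?_ (mul_nonneg zero_le_two h0))
    rw [bias_sq, div_le_iff₀ card_pos']
    refine (sum_le_sum (g := fun h => 2 * ε ^ 2 + if Q.eval h = 0 then 1 else 0)
      fun h _ => ?_).trans ?_
    · split_ifs with c
      · exact (le_abs_self _).trans ((abs_bias _).trans (by nlinarith))
      · rw [add_zero]
        refine (le_abs_self _).trans (key h ⟨_, sh_mem (hP _ p0).1 (hP _ p0).2.1, fun z => c ?_⟩)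
        rw [q1, z, zero_pow (by positivity)]
    · rw [sum_add_distrib, sum_boole, sum_const, card_univ, nsmul_eq_mul]
      have h2 : ε ^ 2 ^ (k + 1) ≤ ε ^ 2 := pow_le_pow_of_le_one h0 h1
        (by rw [pow_succ]; exact Nat.le_mul_of_pos_left _ (by positivity))
      have h3 := mul_le_mul_of_nonneg_right h2 (card_pos' (K := K)).le
      nlinarith [mul_nonneg (sq_nonneg ε) (card_pos' (K := K)).le]

end Pool.Agent.MP_34d6af_nt.FF

end
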